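import Pool.Agent.H69.PP.Base

/-!
# Pairs near the special pair

By compactness, near the special pair there are still no nonzero solutions.
-/

set_option autoImplicit false

open Polynomial Set

namespace Pool.Agent.H69.PP

/-- value of the polynomial with the given coefficients -/
def ev {q : ℕ} (c : Fin (q + 1) → ℝ) (s : ℝ) : ℝ := ∑ k, c k * s ^ (k : ℕ)

/-- the polynomial with the given coefficients -/
noncomputable def pol {q : ℕ} (c : Fin (q + 1) → ℝ) : ℝ[X] := ∑ k, C (c k) * X ^ (k : ℕ)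

theorem eval_pol {q : ℕ} (c : Fin (q + 1) → ℝ) (s : ℝ) : (pol c).eval s = ev c s := by
  simp [pol, ev, eval_finsetSum]

theorem pol_coeff {q : ℕ} (c : Fin (q + 1) → ℝ) (k : Fin (q + 1)) : (pol c).coeff k = c k := by
  unfold pol
  rw [finsetSum_coeff, Finset.sum_eq_single k]
  · simp
  · intro b _ hb
    rw [coeff_C_mul, coeff_X_pow, if_neg, mul_zero]
    intro h
    exact hb (Fin.ext h.symm)
  · intro h
    exact absurd (Finset.mem_univ _) h

theorem pol_natDegree {q : ℕ} (c : Fin (q + 1) → ℝ) : (pol c).natDegree ≤ q := by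
  refine natDegree_sum_le_of_forall_le _ _ fun k _ => ?_
  refine (natDegree_C_mul_le _ _).trans ((natDegree_X_pow_le _).trans ?_)
  omega

theorem ev_coeff {q : ℕ} {p : ℝ[X]} (hp : p.natDegree ≤ q) (s : ℝ) :
    ev (fun k : Fin (q + 1) => p.coeff k) s = p.eval s := by
  rw [eval_eq_sum_range' (Nat.lt_succ_of_le hp), Finset.sum_range]
  rfl

theorem eval_sp (t s : ℝ) (p : ℝ[X][X]) : (sp t p).eval s = (p.eval (C s)).eval t := by
  have h : (evalRingHom t) (C s) = s := by simp
  have h2 : (sp t p).eval s = (p.map (evalRingHom t)).eval ((evalRingHom t) (C s)) := by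
    rw [h]; rfl
  rw [h2, eval_map, eval₂_at_apply]
  rfl

theorem eval_pair (s : ℝ) (m x : Fin 6 → ℝ[X]) :
    (pair m x).eval s = pair (fun i => (m i).eval s) (fun i => (x i).eval s) := by
  simp [pair]

theorem eval_quad (s : ℝ) (x : Fin 6 → ℝ[X]) :
    (quad x).eval s = quad (fun i => (x i).eval s) := by
  simp [quad]

theorem eval_mn (s : ℝ) (u v : Fin 2 ⊕ Fin 2 → ℝ[X]) :
    (fun i => (mn u v i).eval s) = mn (fun j => (u j).eval s) (fun j => (v j).eval s) := by
  funext i
  fin_cases i <;> simp [mn, wd]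

/-- the space of solutions -/
abbrev EE (q : ℕ) : Type := (Fin 6 → Fin (q + 1) → ℝ) × ℝ

/-- **Robustness.** -/
theorem robust {q n : ℕ} (hn : 2 * be q ≤ n) {U V : Fin 2 ⊕ Fin 2 → ℝ[X][X]}
    (hU : ∀ j, sp 0 (U j) = r0 q j) (hV : ∀ j, sp 0 (V j) = r1 q j) :
    ∃ δ > 0, ∀ t : ℝ, |t| < δ → ∀ x : Fin 6 → ℝ[X], (∀ i, (x i).natDegree ≤ q) → ∀ a : ℝ,
      quad x = 0 → pair (mn (fun j => sp t (U j)) (fun j => sp t (V j))) x = C a * phi q n →
      a = 0 ∧ x = 0 := by
  let qe : EE q → ℝ → ℝ := fun e s => quad fun i => ev (e.1 i) s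
  let pe : ℝ → EE q → ℝ → ℝ := fun t e s =>
    pair (mn (fun j => ((U j).eval (C s)).eval t) (fun j => ((V j).eval (C s)).eval t))
      (fun i => ev (e.1 i) s) - e.2 * (phi q n).eval s
  let K : Set (ℝ × EE q) := (Icc (-1 : ℝ) 1 ×ˢ Metric.sphere (0 : EE q) 1) ∩
    ⋂ s : ℝ, ({z | qe z.2 s = 0} ∩ {z | pe z.1 z.2 s = 0})
  have hevc : ∀ (i : Fin 6) (s : ℝ), Continuous fun z : ℝ × EE q => ev (z.2.1 i) s := by
    intro i s
    unfold ev
    fun_prop
  have huc : ∀ (p : ℝ[X]), Continuous fun z : ℝ × EE q => p.eval z.1 := fun p =>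
    p.continuous.comp continuous_fst
  have hqc : ∀ s, Continuous fun z : ℝ × EE q => qe z.2 s := by
    intro s
    simp only [qe, quad]
    exact (((hevc 0 s).mul (hevc 5 s)).sub ((hevc 1 s).mul (hevc 4 s))).add
      ((hevc 2 s).mul (hevc 3 s))
  have hmc : ∀ (i : Fin 6) (s : ℝ), Continuous fun z : ℝ × EE q =>
      mn (fun j => ((U j).eval (C s)).eval z.1) (fun j => ((V j).eval (C s)).eval z.1) i := by
    intro i s
    have hw : ∀ j k, Continuous fun z : ℝ × EE q =>
        wd (fun j => ((U j).eval (C s)).eval z.1) (fun j => ((V j).eval (C s)).eval z.1) j k := by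
      intro j k
      unfold wd
      exact ((huc _).mul (huc _)).sub ((huc _).mul (huc _))
    fin_cases i
    · exact hw _ _
    · exact hw _ _
    · exact hw _ _
    · exact hw _ _
    · exact hw _ _
    · exact hw _ _
  have hpc : ∀ s, Continuous fun z : ℝ × EE q => pe z.1 z.2 s := by
    intro s
    simp only [pe, pair]
    refine Continuous.sub ?_ (by fun_prop)
    exact ((((((hmc 0 s).mul (hevc 5 s)).sub ((hmc 1 s).mul (hevc 4 s))).add
      ((hmc 2 s).mul (hevc 3 s))).add ((hmc 3 s).mul (hevc 2 s))).sub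
      ((hmc 4 s).mul (hevc 1 s))).add ((hmc 5 s).mul (hevc 0 s))
  have hK : IsCompact K := by
    refine (isCompact_Icc.prod (isCompact_sphere _ _)).inter_right ?_
    refine isClosed_iInter fun s => ?_
    exact (isClosed_eq (hqc s) continuous_const).inter (isClosed_eq (hpc s) continuous_const)
  have h0 : (0 : ℝ) ∉ Prod.fst '' K := by
    rintro ⟨⟨t, e⟩, ⟨⟨-, he⟩, hz⟩, ht⟩
    simp only at ht
    subst ht
    rw [mem_iInter] at hz
    have hq : quad (fun i => pol (e.1 i)) = 0 := by
      refine Polynomial.funext fun s => ?_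
      rw [eval_quad, eval_zero]
      have := (hz s).1
      simp only [eval_pol]
      exact this
    have hp : pair (mn (r0 q) (r1 q)) (fun i => pol (e.1 i)) = C e.2 * phi q n := by
      refine Polynomial.funext fun s => ?_
      rw [eval_pair, eval_mn, eval_mul, eval_C]
      have := (hz s).2
      simp only [eval_pol]
      have h2 : pe 0 e s = 0 := this
      simp only [pe, ← eval_sp, hU, hV] at h2
      linarith
    obtain ⟨ha, hx⟩ := base q hn (fun i => pol_natDegree (e.1 i)) hq hp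
    have he0 : e = 0 := by
      refine Prod.ext ?_ ha
      funext i k
      have h3 : pol (e.1 i) = 0 := congrFun hx i
      rw [← pol_coeff (e.1 i) k, h3]
      simp
    rw [he0] at he
    simp at he
  have hcl : IsOpen (Prod.fst '' K)ᶜ := (hK.image continuous_fst).isClosed.isOpen_compl
  obtain ⟨δ, hδ, hball⟩ := Metric.isOpen_iff.1 hcl 0 h0
  refine ⟨min δ 1, lt_min hδ one_pos, ?_⟩
  intro t ht x hx a hq hp
  by_contra hne
  let e : EE q := (fun i k => (x i).coeff k, a)
  have he : e ≠ 0 := by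
    intro he
    apply hne
    refine ⟨congrArg Prod.snd he, ?_⟩
    funext i
    ext k
    rcases Nat.lt_or_ge k (q + 1) with hk | hk
    · have := congrFun (congrFun (congrArg Prod.fst he) i) ⟨k, hk⟩
      simpa [e] using this
    · rw [coeff_eq_zero_of_natDegree_lt (lt_of_le_of_lt (hx i) hk)]
      simp
  have hr : 0 < ‖e‖ := norm_pos_iff.2 he
  have hev : ∀ i s, ev ((‖e‖⁻¹ • e).1 i) s = ‖e‖⁻¹ * (x i).eval s := by
    intro i s
    rw [← ev_coeff (hx i) s]
    unfold ev
    rw [Finset.mul_sum]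
    refine Finset.sum_congr rfl fun k _ => ?_
    show ‖e‖⁻¹ * (x i).coeff k * s ^ (k : ℕ) = ‖e‖⁻¹ * ((x i).coeff k * s ^ (k : ℕ))
    ring
  have hmem : (t, ‖e‖⁻¹ • e) ∈ K := by
    refine ⟨⟨?_, ?_⟩, ?_⟩
    · have := abs_le.1 (ht.le.trans (min_le_right _ _))
      exact ⟨this.1, this.2⟩
    · rw [mem_sphere_zero_iff_norm, norm_smul, norm_inv, norm_norm, inv_mul_cancel₀ hr.ne']
    · rw [mem_iInter]
      intro s
      refine ⟨?_, ?_⟩
      · show quad (fun i => ev ((‖e‖⁻¹ • e).1 i) s) = 0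
        have h1 := congrArg (eval s) hq
        rw [eval_quad, eval_zero] at h1
        simp only [hev]
        unfold quad at h1 ⊢
        linear_combination ‖e‖⁻¹ ^ 2 * h1
      · show pair _ (fun i => ev ((‖e‖⁻¹ • e).1 i) s) - (‖e‖⁻¹ • e).2 * (phi q n).eval s = 0
        have h1 := congrArg (eval s) hp
        rw [eval_pair, eval_mn, eval_mul, eval_C] at h1
        simp only [eval_sp] at h1
        simp only [hev]
        have h3 : (‖e‖⁻¹ • e).2 = ‖e‖⁻¹ * a := rfl
        rw [h3]
        unfold pair at h1 ⊢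
        linear_combination ‖e‖⁻¹ * h1
  have htb : t ∈ Metric.ball (0 : ℝ) δ := by
    rw [Metric.mem_ball, dist_zero_right, Real.norm_eq_abs]
    exact ht.trans_le (min_le_left _ _)
  exact hball htb ⟨_, hmem, rfl⟩

end Pool.Agent.H69.PP
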