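import Pool.Agent.H69.PP.Path

/-!
# The special pair

`r0 q, r1 q` are the real and imaginary parts of the complex row vector `(f, g)`,
`f = 1 + i X^α`, `g = X^γ + i (1 + X^(α + γ))`, where `α = q / 2 + 1`, `γ = q + 1`. Its Plücker
coordinates are `(|f|², 1, R, -R, 1, |g|²)`, and together with the quadratic Plücker relation a
vector `x` of polynomials of degree `≤ q` is a Hermitian matrix `H` and a complex polynomial
`z` with `det H + |z|² = 0`; the pairing with the special pair determines `H`.
-/

set_option autoImplicit false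

open Polynomial

namespace Pool.Agent.H69.PP

/-- pairing of Plücker coordinates -/
def pair {A : Type} [CommRing A] (m x : Fin 6 → A) : A :=
  m 0 * x 5 - m 1 * x 4 + m 2 * x 3 + m 3 * x 2 - m 4 * x 1 + m 5 * x 0

/-- the Plücker relation -/
def quad {A : Type} [CommRing A] (x : Fin 6 → A) : A := x 0 * x 5 - x 1 * x 4 + x 2 * x 3

/-- a `2 × 2` minor -/
def wd {A J : Type} [CommRing A] (u v : J → A) (j k : J) : A := u j * v k - u k * v j

/-- the Plücker coordinates -/
def mn {A : Type} [CommRing A] (u v : Fin 2 ⊕ Fin 2 → A) : Fin 6 → A :=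
  ![wd u v (Sum.inl 0) (Sum.inl 1), wd u v (Sum.inl 0) (Sum.inr 0), wd u v (Sum.inl 0) (Sum.inr 1),
    wd u v (Sum.inl 1) (Sum.inr 0), wd u v (Sum.inl 1) (Sum.inr 1), wd u v (Sum.inr 0) (Sum.inr 1)]

theorem quad_mn {A : Type} [CommRing A] (u v : Fin 2 ⊕ Fin 2 → A) : quad (mn u v) = 0 := by
  simp [quad, mn, wd]
  ring

theorem det_fromRows {A : Type} [CommRing A] (P Q : Matrix (Fin 2) (Fin 2 ⊕ Fin 2) A) :
    (Matrix.fromRows P Q).det = pair (mn (P 0) (P 1)) (mn (Q 0) (Q 1)) := by
  rw [← Matrix.det_submatrix_equiv_self (finSumFinEquiv (m := 2) (n := 2)).symm]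
  have hM : (Matrix.fromRows P Q).submatrix (finSumFinEquiv (m := 2) (n := 2)).symm
      (finSumFinEquiv (m := 2) (n := 2)).symm =
      (!![P 0 (Sum.inl 0), P 0 (Sum.inl 1), P 0 (Sum.inr 0), P 0 (Sum.inr 1);
        P 1 (Sum.inl 0), P 1 (Sum.inl 1), P 1 (Sum.inr 0), P 1 (Sum.inr 1);
        Q 0 (Sum.inl 0), Q 0 (Sum.inl 1), Q 0 (Sum.inr 0), Q 0 (Sum.inr 1);
        Q 1 (Sum.inl 0), Q 1 (Sum.inl 1), Q 1 (Sum.inr 0), Q 1 (Sum.inr 1)] :
        Matrix (Fin 4) (Fin 4) A) := by
    ext i j
    fin_cases i <;> fin_cases j <;> rfl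
  rw [hM]
  simp only [Matrix.det_succ_row_zero, Fin.sum_univ_succ, Matrix.det_fin_zero, pair, mn, wd]
  simp [Fin.succAbove]
  ring

theorem eq_zero_of_degree {D p L : ℝ[X]} {d : ℕ} (hp : p.natDegree = d) (hL : L.natDegree < d)
    (h : D * p + L = 0) : D = 0 := by
  by_contra hD
  have hp0 : p ≠ 0 := by
    rintro rfl
    simp at hp
    omega
  have h1 : D * p = -L := by linear_combination h
  have h2 : (D * p).natDegree = D.natDegree + p.natDegree := natDegree_mul hD hp0
  rw [h1, natDegree_neg] at h2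
  omega

variable (q : ℕ)

/-- the exponent `α` -/
def al : ℕ := q / 2 + 1

/-- the exponent `β = α + γ` -/
def be : ℕ := al q + (q + 1)

theorem two_be : 2 * be q = 3 * q + 4 - q % 2 := by
  unfold be al
  omega

/-- first row -/
noncomputable def r0 : Fin 2 ⊕ Fin 2 → ℝ[X] :=
  Sum.elim ![1, -X ^ al q] ![X ^ (q + 1), -(1 + X ^ be q)]

/-- second row -/
noncomputable def r1 : Fin 2 ⊕ Fin 2 → ℝ[X] :=
  Sum.elim ![X ^ al q, 1] ![1 + X ^ be q, X ^ (q + 1)]

noncomputable def N1 : ℝ[X] := 1 + X ^ (2 * al q)
noncomputable def N2 : ℝ[X] := X ^ (2 * (q + 1)) + (1 + X ^ be q) ^ 2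
noncomputable def RR : ℝ[X] := X ^ (q + 1) + X ^ al q * (1 + X ^ be q)

theorem mn_r : mn (r0 q) (r1 q) = ![N1 q, 1, RR q, -RR q, 1, N2 q] := by
  have hb : (X : ℝ[X]) ^ be q = X ^ al q * X ^ (q + 1) := by rw [be, pow_add]
  unfold mn wd r0 r1 N1 N2 RR
  simp only [Sum.elim_inl, Sum.elim_inr, Matrix.cons_val_zero, Matrix.cons_val_one]
  congr 1
  · ring
  congr 1
  · rw [hb]; ring
  congr 1
  · ring
  congr 1
  · ring
  congr 1
  · rw [hb]; ring
  congr 1
  · ring

theorem one_add_X_pow_natDegree (b : ℕ) (hb : 0 < b) : (1 + X ^ b : ℝ[X]).natDegree = b := by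
  rw [natDegree_add_eq_right_of_natDegree_lt, natDegree_X_pow]
  rw [natDegree_one, natDegree_X_pow]
  exact hb

theorem N1_natDegree : (N1 q).natDegree = 2 * al q := by
  unfold N1
  exact one_add_X_pow_natDegree _ (by unfold al; omega)

theorem N2_natDegree : (N2 q).natDegree = 2 * be q := by
  unfold N2
  have h1 : ((1 + X ^ be q) ^ 2 : ℝ[X]).natDegree = 2 * be q := by
    rw [natDegree_pow, one_add_X_pow_natDegree _ (by unfold be al; omega)]
  rw [natDegree_add_eq_right_of_natDegree_lt, h1]
  rw [natDegree_X_pow, h1]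
  unfold be al
  omega

theorem RR_natDegree : (RR q).natDegree = al q + be q := by
  unfold RR
  have h0 : (1 + X ^ be q : ℝ[X]).natDegree = be q :=
    one_add_X_pow_natDegree _ (by unfold be al; omega)
  have h1 : (X ^ al q * (1 + X ^ be q) : ℝ[X]).natDegree = al q + be q := by
    rw [natDegree_mul (pow_ne_zero _ X_ne_zero), natDegree_X_pow, h0]
    intro h
    rw [h] at h0
    simp [be] at h0
  rw [natDegree_add_eq_right_of_natDegree_lt, h1]
  rw [natDegree_X_pow, h1]
  unfold be al
  omega

/-- the coefficients are determined -/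
theorem indep {A D B E : ℝ[X]} (hA : A.natDegree ≤ q) (hB : B.natDegree ≤ q)
    (hE : E.natDegree ≤ q) (h : A * N1 q + D * N2 q + B * RR q + E = 0) :
    A = 0 ∧ D = 0 ∧ B = 0 ∧ E = 0 := by
  have hbe : be q = al q + (q + 1) := rfl
  have hal : 2 * al q ≥ q + 1 := by unfold al; omega
  have h1 : D = 0 := by
    refine eq_zero_of_degree (L := A * N1 q + B * RR q + E) (N2_natDegree q) ?_
      (by linear_combination h)
    refine lt_of_le_of_lt (natDegree_add_le_of_le (natDegree_add_le_of_le
      (natDegree_mul_le_of_le hA (N1_natDegree q).le)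
      (natDegree_mul_le_of_le hB (RR_natDegree q).le)) hE) ?_
    simp only [max_lt_iff]
    omega
  subst h1
  rw [zero_mul, add_zero] at h
  have h2 : B = 0 := by
    refine eq_zero_of_degree (L := A * N1 q + E) (RR_natDegree q) ?_
      (by linear_combination h)
    refine lt_of_le_of_lt (natDegree_add_le_of_le
      (natDegree_mul_le_of_le hA (N1_natDegree q).le) hE) ?_
    simp only [max_lt_iff]
    omega
  subst h2
  rw [zero_mul, add_zero] at h
  have h3 : A = 0 := by
    refine eq_zero_of_degree (L := E) (N1_natDegree q) (lt_of_le_of_lt hE ?_) h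
    omega
  subst h3
  rw [zero_mul, zero_add] at h
  exact ⟨rfl, rfl, rfl, h⟩

/-- the polynomial which cannot be assigned -/
noncomputable def phi (n : ℕ) : ℝ[X] :=
  if n = 2 * be q then X ^ q * (N1 q + N2 q) else X ^ (n + q)

theorem N12_natDegree : (N1 q + N2 q).natDegree = 2 * be q := by
  rw [natDegree_add_eq_right_of_natDegree_lt, N2_natDegree]
  rw [N1_natDegree, N2_natDegree]
  unfold be
  omega

theorem phi_natDegree (n : ℕ) : (phi q n).natDegree = n + q := by
  unfold phi
  split_ifs with h
  · rw [natDegree_mul (pow_ne_zero _ X_ne_zero), natDegree_X_pow, N12_natDegree, h]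
    · omega
    · intro h0
      have := N12_natDegree q
      rw [h0] at this
      simp [be] at this
  · exact natDegree_X_pow _

theorem sq_add_sq_eq_zero {a b : ℝ[X]} (h : a * a + b * b = 0) : a = 0 ∧ b = 0 := by
  have key : ∀ s : ℝ, a.eval s = 0 ∧ b.eval s = 0 := by
    intro s
    have := congrArg (eval s) h
    simp only [eval_add, eval_mul, eval_zero] at this
    constructor <;> nlinarith [mul_self_nonneg (a.eval s), mul_self_nonneg (b.eval s)]
  exact ⟨Polynomial.funext fun s => by rw [(key s).1, eval_zero],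
    Polynomial.funext fun s => by rw [(key s).2, eval_zero]⟩

/-- **no solutions for the special pair** -/
theorem base {n : ℕ} (hn : 2 * be q ≤ n) {x : Fin 6 → ℝ[X]} (hx : ∀ i, (x i).natDegree ≤ q)
    {a : ℝ} (hq : quad x = 0) (hp : pair (mn (r0 q) (r1 q)) x = C a * phi q n) :
    a = 0 ∧ x = 0 := by
  have hbe : be q = al q + (q + 1) := rfl
  have hal : 2 * al q ≥ q + 1 := by unfold al; omega
  rw [mn_r] at hp
  simp only [pair] at hp
  have hp' : N1 q * x 5 - 1 * x 4 + RR q * x 3 + -RR q * x 2 - 1 * x 1 + N2 q * x 0 =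
      C a * phi q n := hp
  by_cases hn2 : n = 2 * be q
  · rw [phi, if_pos hn2] at hp'
    have hXq : (C a * X ^ q : ℝ[X]).natDegree ≤ q :=
      (natDegree_C_mul_le _ _).trans (natDegree_X_pow_le q)
    obtain ⟨e1, e2, e3, e4⟩ := indep q (A := x 5 - C a * X ^ q) (D := x 0 - C a * X ^ q)
      (B := x 3 - x 2) (E := -(x 4 + x 1))
      ((natDegree_sub_le_of_le (hx 5) hXq).trans (max_self q).le)
      ((natDegree_sub_le_of_le (hx 3) (hx 2)).trans (max_self q).le)
      (by rw [natDegree_neg]; exact (natDegree_add_le_of_le (hx 4) (hx 1)).trans (max_self q).le)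
      (by linear_combination hp')
    have e1' : x 5 = C a * X ^ q := by linear_combination e1
    have e2' : x 0 = C a * X ^ q := by linear_combination e2
    have e3' : x 3 = x 2 := by linear_combination e3
    have e4' : x 4 = -x 1 := by linear_combination -e4
    unfold quad at hq
    rw [e1', e2', e3', e4'] at hq
    have ha : a = 0 := by
      have := congrArg (eval 1) hq
      simp only [eval_add, eval_sub, eval_mul, eval_neg, eval_zero, eval_C, eval_pow, eval_X,
        one_pow, mul_one] at this
      nlinarith [mul_self_nonneg a, mul_self_nonneg ((x 1).eval 1),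
        mul_self_nonneg ((x 2).eval 1)]
    subst ha
    rw [C_0, zero_mul] at e1' e2' hq
    obtain ⟨f1, f2⟩ := sq_add_sq_eq_zero (a := x 1) (b := x 2) (by linear_combination hq)
    refine ⟨rfl, ?_⟩
    funext i
    fin_cases i
    · exact e2'
    · exact f1
    · exact f2
    · exact e3'.trans f2
    · show x 4 = 0
      rw [e4', f1, neg_zero]
    · exact e1'
  · have ha : a = 0 := by
      have hc : (N1 q * x 5 - 1 * x 4 + RR q * x 3 + -RR q * x 2 - 1 * x 1 + N2 q * x 0).natDegree
          < n + q := by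
        have hR' : (-RR q).natDegree ≤ al q + be q := by rw [natDegree_neg, RR_natDegree]
        have d1 : (N1 q * x 5).natDegree ≤ 2 * be q + q :=
          (natDegree_mul_le_of_le (N1_natDegree q).le (hx 5)).trans (by omega)
        have d2 : (1 * x 4).natDegree ≤ 2 * be q + q := by rw [one_mul]; exact (hx 4).trans (by omega)
        have d3 : (RR q * x 3).natDegree ≤ 2 * be q + q :=
          (natDegree_mul_le_of_le (RR_natDegree q).le (hx 3)).trans (by omega)
        have d4 : (-RR q * x 2).natDegree ≤ 2 * be q + q :=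
          (natDegree_mul_le_of_le hR' (hx 2)).trans (by omega)
        have d5 : (1 * x 1).natDegree ≤ 2 * be q + q := by rw [one_mul]; exact (hx 1).trans (by omega)
        have d6 : (N2 q * x 0).natDegree ≤ 2 * be q + q :=
          (natDegree_mul_le_of_le (N2_natDegree q).le (hx 0)).trans (by omega)
        refine lt_of_le_of_lt (natDegree_add_le_of_le (natDegree_sub_le_of_le
          (natDegree_add_le_of_le (natDegree_add_le_of_le (natDegree_sub_le_of_le d1 d2) d3) d4)
          d5) d6) ?_
        simp only [max_self]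
        omega
      rw [hp', phi, if_neg hn2] at hc
      by_contra ha
      rw [natDegree_C_mul_X_pow _ _ ha] at hc
      exact lt_irrefl _ hc
    subst ha
    rw [C_0, zero_mul] at hp'
    obtain ⟨e1, e2, e3, e4⟩ := indep q (A := x 5) (D := x 0)
      (B := x 3 - x 2) (E := -(x 4 + x 1)) (hx 5)
      ((natDegree_sub_le_of_le (hx 3) (hx 2)).trans (max_self q).le)
      (by rw [natDegree_neg]; exact (natDegree_add_le_of_le (hx 4) (hx 1)).trans (max_self q).le)
      (by linear_combination hp')
    have e3' : x 3 = x 2 := by linear_combination e3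
    have e4' : x 4 = -x 1 := by linear_combination -e4
    unfold quad at hq
    rw [e1, e2, e3', e4'] at hq
    obtain ⟨f1, f2⟩ := sq_add_sq_eq_zero (a := x 1) (b := x 2) (by linear_combination hq)
    refine ⟨rfl, ?_⟩
    funext i
    fin_cases i
    · exact e2
    · exact f1
    · exact f2
    · exact e3'.trans f2
    · show x 4 = 0
      rw [e4', f1, neg_zero]
    · exact e1

end Pool.Agent.H69.PP
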