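import Mathlib

/-!
# Deforming a pair of polynomial vectors with small minors

`Bd n T u v`: the polynomial vectors `u`, `v` have degrees at most `T / 2` and `(T + 1) / 2` and all
their `2 × 2` minors have degree at most `n`. As long as `T > n` the leading coefficient vectors are
parallel, and one of the vectors can be reduced (fraction free), see `redU`, `redV`.
This gives a polynomial path from `(u, v)` to any given pair with small degrees, if the pivots
do not vanish.
-/

set_option autoImplicit false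

open Polynomial

namespace Pool.Agent.H69.PP

variable {J : Type}

/-- degree bounds -/
def Bd {A : Type} [CommRing A] (n T : ℕ) (u v : J → A[X]) : Prop :=
  (∀ j, (u j).natDegree ≤ T / 2) ∧ (∀ j, (v j).natDegree ≤ (T + 1) / 2) ∧
    ∀ j k, (u j * v k - u k * v j).natDegree ≤ n

/-- reduction of `u`, of degree `D`, by `v`, of degree `D` -/
noncomputable def redU (j0 : J) (D : ℕ) (u v : J → ℝ[X]) : J → ℝ[X] := fun j =>
  C ((v j0).coeff D) * u j - C ((u j0).coeff D) * v j

/-- reduction of `v`, of degree `D + 1`, by `u`, of degree `D` -/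
noncomputable def redV (j0 : J) (D : ℕ) (u v : J → ℝ[X]) : J → ℝ[X] := fun j =>
  C ((u j0).coeff D) * v j - C ((v j0).coeff (D + 1)) * (X * u j)

/-- the product of the pivots of the first `i` steps -/
noncomputable def hval (j0 : J) (n : ℕ) : ℕ → (J → ℝ[X]) → (J → ℝ[X]) → ℝ
  | 0, _, _ => 1
  | i + 1, u, v =>
    if (n + i + 1) % 2 = 0 then
      (v j0).coeff ((n + i + 1) / 2) * hval j0 n i (redU j0 ((n + i + 1) / 2) u v) v
    else
      (u j0).coeff ((n + i + 1) / 2) * hval j0 n i u (redV j0 ((n + i + 1) / 2) u v)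

theorem natDegree_le_pred {A : Type} [CommRing A] {p : A[X]} {D : ℕ} (h : p.natDegree ≤ D + 1)
    (h' : p.coeff (D + 1) = 0) : p.natDegree ≤ D := by
  rw [natDegree_le_iff_coeff_eq_zero] at h ⊢
  intro N hN
  rcases Nat.lt_or_ge (D + 1) N with h1 | h1
  · exact h N h1
  · have : N = D + 1 := by omega
    rw [this]
    exact h'

theorem redU_bd {j0 : J} {n D : ℕ} (hn : n < 2 * (D + 1)) {u v : J → ℝ[X]}
    (h : Bd n (2 * (D + 1)) u v) : Bd n (2 * D + 1) (redU j0 (D + 1) u v) v := by
  obtain ⟨h0, h1, hw⟩ := h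
  have e1 : 2 * (D + 1) / 2 = D + 1 := by omega
  have e2 : (2 * (D + 1) + 1) / 2 = D + 1 := by omega
  have e3 : (2 * D + 1) / 2 = D := by omega
  have e4 : (2 * D + 1 + 1) / 2 = D + 1 := by omega
  rw [e1] at h0
  rw [e2] at h1
  refine ⟨?_, ?_, ?_⟩
  · intro j
    rw [e3]
    refine natDegree_le_pred ?_ ?_
    · refine (natDegree_sub_le_of_le ((natDegree_C_mul_le _ _).trans (h0 j))
          ((natDegree_C_mul_le _ _).trans (h1 j))).trans ?_
      rw [max_self]
    · have hz : (u j * v j0 - u j0 * v j).coeff ((D + 1) + (D + 1)) = 0 := by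
        refine coeff_eq_zero_of_natDegree_lt (lt_of_le_of_lt (hw j j0) ?_)
        omega
      rw [coeff_sub, coeff_mul_add_eq_of_natDegree_le (h0 j) (h1 j0),
        coeff_mul_add_eq_of_natDegree_le (h0 j0) (h1 j)] at hz
      unfold redU
      rw [coeff_sub, coeff_C_mul, coeff_C_mul]
      linarith
  · intro j
    rw [e4]
    exact h1 j
  · intro j k
    have : redU j0 (D + 1) u v j * v k - redU j0 (D + 1) u v k * v j =
        C ((v j0).coeff (D + 1)) * (u j * v k - u k * v j) := by
      unfold redU
      ring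
    rw [this]
    exact (natDegree_C_mul_le _ _).trans (hw j k)

theorem redV_bd {j0 : J} {n D : ℕ} (hn : n < 2 * D + 1) {u v : J → ℝ[X]}
    (h : Bd n (2 * D + 1) u v) : Bd n (2 * D) u (redV j0 D u v) := by
  obtain ⟨h0, h1, hw⟩ := h
  have e1 : (2 * D + 1) / 2 = D := by omega
  have e2 : (2 * D + 1 + 1) / 2 = D + 1 := by omega
  have e3 : 2 * D / 2 = D := by omega
  rw [e1] at h0
  rw [e2] at h1
  refine ⟨?_, ?_, ?_⟩
  · intro j
    rw [e3]
    exact h0 j
  · intro j
    rw [e1]
    refine natDegree_le_pred ?_ ?_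
    · refine (natDegree_sub_le_of_le (n := D + 1) ((natDegree_C_mul_le _ _).trans (h1 j))
          ((natDegree_C_mul_le _ _).trans ?_)).trans ?_
      · refine natDegree_mul_le.trans ?_
        have := natDegree_X_le (R := ℝ)
        have := h0 j
        omega
      · rw [max_self]
    · have hz : (u j0 * v j - u j * v j0).coeff (D + (D + 1)) = 0 := by
        refine coeff_eq_zero_of_natDegree_lt (lt_of_le_of_lt (hw j0 j) ?_)
        omega
      rw [coeff_sub, coeff_mul_add_eq_of_natDegree_le (h0 j0) (h1 j),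
        coeff_mul_add_eq_of_natDegree_le (h0 j) (h1 j0)] at hz
      unfold redV
      rw [coeff_sub, coeff_C_mul, coeff_C_mul, coeff_X_mul]
      linarith
  · intro j k
    have : u j * redV j0 D u v k - u k * redV j0 D u v j =
        C ((u j0).coeff D) * (u j * v k - u k * v j) := by
      unfold redV
      ring
    rw [this]
    exact (natDegree_C_mul_le _ _).trans (hw j k)

/-! ### The path -/

/-- specialisation of the inner variable -/
noncomputable def sp (t : ℝ) : ℝ[X][X] →+* ℝ[X] := mapRingHom (evalRingHom t)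

theorem sp_C (t : ℝ) (a : ℝ[X]) : sp t (C a) = C (a.eval t) := by
  simp [sp]

theorem sp_X (t : ℝ) : sp t X = X := by
  simp [sp]

theorem sp_lift (t : ℝ) (p : ℝ[X]) : sp t (p.map C) = p := by
  have : (evalRingHom t).comp (C : ℝ →+* ℝ[X]) = RingHom.id ℝ := by
    ext
    simp
  simp only [sp, coe_mapRingHom, map_map, this, map_id]

theorem path_base {n : ℕ} {u v u₀ v₀ : J → ℝ[X]} (h : Bd n n u v)
    (hu₀ : ∀ j, (u₀ j).natDegree ≤ n / 2) (hv₀ : ∀ j, (v₀ j).natDegree ≤ n / 2) :
    ∃ U V : J → ℝ[X][X], Bd n n U V ∧ (∀ j, sp 0 (U j) = u₀ j) ∧ (∀ j, sp 0 (V j) = v₀ j) ∧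
      (∀ j, sp 1 (U j) = u j) ∧ ∀ j, sp 1 (V j) = v j := by
  obtain ⟨h0, h1, -⟩ := h
  let L : ℝ[X] → ℝ[X] → ℝ[X][X] := fun a b => a.map C + C X * (b.map C - a.map C)
  have hL : ∀ a b : ℝ[X], ∀ m, a.natDegree ≤ m → b.natDegree ≤ m → (L a b).natDegree ≤ m := by
    intro a b m ha hb
    have ha' : (a.map (C : ℝ →+* ℝ[X])).natDegree ≤ m := natDegree_map_le.trans ha
    have hb' : (b.map (C : ℝ →+* ℝ[X])).natDegree ≤ m := natDegree_map_le.trans hb
    refine (natDegree_add_le_of_le ha' ((natDegree_C_mul_le _ _).trans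
      ((natDegree_sub_le_of_le hb' ha').trans (max_self m).le))).trans (max_self m).le
  have hs : ∀ t (a b : ℝ[X]), sp t (L a b) = a + C t * (b - a) := by
    intro t a b
    simp only [L, map_add, map_mul, map_sub, sp_C, sp_lift, eval_X]
  have hU : ∀ j, (L (u₀ j) (u j)).natDegree ≤ n / 2 := fun j => hL _ _ _ (hu₀ j) (h0 j)
  have hV : ∀ j, (L (v₀ j) (v j)).natDegree ≤ (n + 1) / 2 := fun j =>
    hL _ _ _ ((hv₀ j).trans (by omega)) (h1 j)
  refine ⟨fun j => L (u₀ j) (u j), fun j => L (v₀ j) (v j), ⟨hU, hV, ?_⟩, ?_, ?_, ?_, ?_⟩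
  · intro j k
    refine (natDegree_sub_le_of_le (natDegree_mul_le_of_le (hU j) (hV k))
      (natDegree_mul_le_of_le (hU k) (hV j))).trans ?_
    rw [max_self]
    omega
  · intro j; rw [hs]; simp
  · intro j; rw [hs]; simp
  · intro j; rw [hs]; simp
  · intro j; rw [hs]; simp

/-- **The path.** -/
theorem exists_path {j0 : J} {n : ℕ} {u₀ v₀ : J → ℝ[X]}
    (hu₀ : ∀ j, (u₀ j).natDegree ≤ n / 2) (hv₀ : ∀ j, (v₀ j).natDegree ≤ n / 2) (i : ℕ) :
    ∀ u v : J → ℝ[X], Bd n (n + i) u v → hval j0 n i u v ≠ 0 →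
    ∃ U V : J → ℝ[X][X], Bd n (n + i) U V ∧ (∀ j, sp 0 (U j) = u₀ j) ∧
      (∀ j, sp 0 (V j) = v₀ j) ∧ (∀ j, sp 1 (U j) = u j) ∧ ∀ j, sp 1 (V j) = v j := by
  induction i with
  | zero =>
    intro u v h _
    exact path_base h hu₀ hv₀
  | succ i ih =>
    intro u v h hh
    rcases Nat.mod_two_eq_zero_or_one (n + i + 1) with hT | hT
    · obtain ⟨D, hD⟩ : ∃ D, n + i + 1 = 2 * (D + 1) := ⟨(n + i + 1) / 2 - 1, by omega⟩
      have hni : n + i = 2 * D + 1 := by omega
      have e1 : (n + i + 1) / 2 = D + 1 := by omega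
      rw [hval, if_pos hT, e1] at hh
      rw [← add_assoc, hD] at h ⊢
      have hb := redU_bd (j0 := j0) (by omega) h
      rw [← hni] at hb
      obtain ⟨U, V, hUV, hU0, hV0, hU1, hV1⟩ := ih _ _ hb (right_ne_zero_of_mul hh)
      set π := (v j0).coeff (D + 1) with hπ
      set l := (u j0).coeff (D + 1) with hl
      have hπ0 : π ≠ 0 := left_ne_zero_of_mul hh
      let a : ℝ[X] := 1 + C (π⁻¹ - 1) * X
      let b : ℝ[X] := C (l / π) * X
      have f1 : (2 * (D + 1)) / 2 = D + 1 := by omega
      have f2 : (2 * (D + 1) + 1) / 2 = D + 1 := by omega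
      have f3 : (n + i) / 2 = D := by omega
      have f4 : (n + i + 1) / 2 = D + 1 := by omega
      obtain ⟨b0, b1, bw⟩ := hUV
      rw [f3] at b0
      rw [f4] at b1
      refine ⟨fun j => C a * U j + C b * V j, V, ⟨?_, ?_, ?_⟩, ?_, hV0, ?_, hV1⟩
      · intro j
        rw [f1]
        refine (natDegree_add_le_of_le ((natDegree_C_mul_le _ _).trans (b0 j))
          ((natDegree_C_mul_le _ _).trans (b1 j))).trans ?_
        exact max_le (by omega) le_rfl
      · intro j
        rw [f2]
        exact b1 j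
      · intro j k
        have : (C a * U j + C b * V j) * V k - (C a * U k + C b * V k) * V j =
            C a * (U j * V k - U k * V j) := by ring
        rw [this]
        exact (natDegree_C_mul_le _ _).trans (bw j k)
      · intro j
        simp only [map_add, map_mul, sp_C, hU0, hV0, a, b]
        simp
      · intro j
        have ea : a.eval 1 = π⁻¹ := by simp [a]
        have eb : b.eval 1 = π⁻¹ * l := by simp [b, div_eq_inv_mul]
        rw [map_add, map_mul, map_mul, sp_C, sp_C, hU1, hV1, ea, eb]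
        unfold redU
        rw [← hπ, ← hl]
        have e5 : C π⁻¹ * (C π * u j - C l * v j) + C (π⁻¹ * l) * v j = C (π⁻¹ * π) * u j := by
          rw [C_mul, C_mul]
          ring
        rw [e5, inv_mul_cancel₀ hπ0, C_1, one_mul]
    · obtain ⟨D, hD⟩ : ∃ D, n + i + 1 = 2 * D + 1 := ⟨(n + i + 1) / 2, by omega⟩
      have hni : n + i = 2 * D := by omega
      have e1 : (n + i + 1) / 2 = D := by omega
      rw [hval, if_neg (by omega), e1] at hh
      rw [← add_assoc, hD] at h ⊢
      have hb := redV_bd (j0 := j0) (by omega) h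
      rw [← hni] at hb
      obtain ⟨U, V, hUV, hU0, hV0, hU1, hV1⟩ := ih _ _ hb (right_ne_zero_of_mul hh)
      set π := (u j0).coeff D with hπ
      set l := (v j0).coeff (D + 1) with hl
      have hπ0 : π ≠ 0 := left_ne_zero_of_mul hh
      let a : ℝ[X] := 1 + C (π⁻¹ - 1) * X
      let b : ℝ[X] := C (l / π) * X
      have f1 : (2 * D + 1) / 2 = D := by omega
      have f2 : (2 * D + 1 + 1) / 2 = D + 1 := by omega
      have f3 : (n + i) / 2 = D := by omega
      have f4 : (n + i + 1) / 2 = D := by omega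
      obtain ⟨b0, b1, bw⟩ := hUV
      rw [f3] at b0
      rw [f4] at b1
      refine ⟨U, fun j => C a * V j + C b * (X * U j), ⟨?_, ?_, ?_⟩, hU0, ?_, hU1, ?_⟩
      · intro j
        rw [f1]
        exact b0 j
      · intro j
        rw [f2]
        refine (natDegree_add_le_of_le (n := D + 1) ((natDegree_C_mul_le _ _).trans (b1 j))
          ((natDegree_C_mul_le _ _).trans ?_)).trans ?_
        · refine natDegree_mul_le.trans ?_
          have := natDegree_X_le (R := ℝ[X])
          have := b0 j
          omega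
        · exact max_le (by omega) le_rfl
      · intro j k
        have : U j * (C a * V k + C b * (X * U k)) - U k * (C a * V j + C b * (X * U j)) =
            C a * (U j * V k - U k * V j) := by ring
        rw [this]
        exact (natDegree_C_mul_le _ _).trans (bw j k)
      · intro j
        simp only [map_add, map_mul, sp_C, sp_X, hU0, hV0, a, b]
        simp
      · intro j
        have ea : a.eval 1 = π⁻¹ := by simp [a]
        have eb : b.eval 1 = π⁻¹ * l := by simp [b, div_eq_inv_mul]
        rw [map_add, map_mul, map_mul, sp_C, sp_C, map_mul (sp 1) X, sp_X, hU1, hV1, ea, eb]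
        unfold redV
        rw [← hπ, ← hl]
        have e5 : C π⁻¹ * (C π * v j - C l * (X * u j)) + C (π⁻¹ * l) * (X * u j) =
            C (π⁻¹ * π) * v j := by
          rw [C_mul, C_mul]
          ring
        rw [e5, inv_mul_cancel₀ hπ0, C_1, one_mul]

/-! ### A pair with nonvanishing pivots -/

theorem exists_point {j0 j1 : J} (hj : j0 ≠ j1) (n i : ℕ) :
    ∃ u v : J → ℝ[X], Bd n (n + i) u v ∧ hval j0 n i u v ≠ 0 ∧
      (u j0).coeff ((n + i) / 2) = 1 ∧ (v j0).coeff ((n + i + 1) / 2) = 1 ∧
      u j0 * v j1 - u j1 * v j0 = X ^ n := by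
  classical
  induction i with
  | zero =>
    let u : J → ℝ[X] := fun j => if j = j0 then X ^ (n / 2) else 0
    let v : J → ℝ[X] := fun j => if j = j0 ∨ j = j1 then X ^ ((n + 1) / 2) else 0
    have hu : ∀ j, (u j).natDegree ≤ n / 2 := by
      intro j
      by_cases h : j = j0 <;> simp [u, h]
    have hv : ∀ j, (v j).natDegree ≤ (n + 1) / 2 := by
      intro j
      by_cases h : j = j0 ∨ j = j1 <;> simp [v, h]
    refine ⟨u, v, ⟨hu, hv, ?_⟩, one_ne_zero, ?_, ?_, ?_⟩
    · intro j k
      refine (natDegree_sub_le_of_le (natDegree_mul_le_of_le (hu j) (hv k))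
        (natDegree_mul_le_of_le (hu k) (hv j))).trans ?_
      rw [max_self]
      omega
    · simp [u]
    · simp [v]
    · simp only [u, v, if_true, hj.symm, if_false, or_true, true_or, zero_mul, sub_zero, ← pow_add]
      congr 1
      omega
  | succ i ih =>
    obtain ⟨u, v, hb, hh, hu1, hv1, hw⟩ := ih
    rcases Nat.mod_two_eq_zero_or_one (n + i + 1) with hT | hT
    · obtain ⟨D, hD⟩ : ∃ D, n + i + 1 = 2 * (D + 1) := ⟨(n + i + 1) / 2 - 1, by omega⟩
      have hni : n + i = 2 * D + 1 := by omega
      have e1 : (n + i + 1) / 2 = D + 1 := by omega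
      have e2 : (n + i) / 2 = D := by omega
      have e3 : (n + (i + 1)) / 2 = D + 1 := by omega
      have e4 : (n + (i + 1) + 1) / 2 = D + 1 := by omega
      obtain ⟨b0, b1, bw⟩ := hb
      rw [e2] at b0
      rw [e1] at b1 hv1
      have hc : ∀ j, (u j).coeff (D + 1) = 0 := fun j =>
        coeff_eq_zero_of_natDegree_lt (lt_of_le_of_lt (b0 j) (Nat.lt_succ_self D))
      have hred : redU j0 (D + 1) (fun j => u j + v j) v = u := by
        funext j
        unfold redU
        rw [coeff_add, hc, hv1]
        simp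
      refine ⟨fun j => u j + v j, v, ⟨?_, ?_, ?_⟩, ?_, ?_, ?_, ?_⟩
      · intro j
        rw [e3]
        exact (natDegree_add_le_of_le (b0 j) (b1 j)).trans (max_le (by omega) le_rfl)
      · intro j
        rw [e4]
        exact b1 j
      · intro j k
        have : (u j + v j) * v k - (u k + v k) * v j = u j * v k - u k * v j := by ring
        rw [this]
        exact bw j k
      · rw [hval, if_pos hT, e1, hred, hv1, one_mul]
        exact hh
      · rw [e3, coeff_add, hc, hv1, zero_add]
      · rw [e4, hv1]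
      · rw [← hw]; ring
    · obtain ⟨D, hD⟩ : ∃ D, n + i + 1 = 2 * D + 1 := ⟨(n + i + 1) / 2, by omega⟩
      have hni : n + i = 2 * D := by omega
      have e1 : (n + i + 1) / 2 = D := by omega
      have e2 : (n + i) / 2 = D := by omega
      have e3 : (n + (i + 1)) / 2 = D := by omega
      have e4 : (n + (i + 1) + 1) / 2 = D + 1 := by omega
      obtain ⟨b0, b1, bw⟩ := hb
      rw [e2] at b0 hu1
      rw [e1] at b1
      have hc : ∀ j, (v j).coeff (D + 1) = 0 := fun j =>
        coeff_eq_zero_of_natDegree_lt (lt_of_le_of_lt (b1 j) (Nat.lt_succ_self D))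
      have hred : redV j0 D u (fun j => v j + X * u j) = v := by
        funext j
        unfold redV
        rw [coeff_add, hc, coeff_X_mul, hu1]
        simp
      refine ⟨u, fun j => v j + X * u j, ⟨?_, ?_, ?_⟩, ?_, ?_, ?_, ?_⟩
      · intro j
        rw [e3]
        exact b0 j
      · intro j
        rw [e4]
        refine (natDegree_add_le_of_le (n := D + 1) (b1 j) ?_).trans (max_le (by omega) le_rfl)
        refine natDegree_mul_le.trans ?_
        have := natDegree_X_le (R := ℝ)
        have := b0 j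
        omega
      · intro j k
        have : u j * (v k + X * u k) - u k * (v j + X * u j) = u j * v k - u k * v j := by ring
        rw [this]
        exact bw j k
      · rw [hval, if_neg (by omega), e1, hred, hu1, one_mul]
        exact hh
      · rw [e3, hu1]
      · rw [e4, coeff_add, hc, coeff_X_mul, hu1, zero_add]
      · rw [← hw]; ring

/-! ### The product of the pivots is a polynomial in the coefficients -/

/-- the coefficients of a pair -/
noncomputable def cf (u v : J → ℝ[X]) (x : Fin 2 × J × ℕ) : ℝ :=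
  if x.1 = 0 then (u x.2.1).coeff x.2.2 else (v x.2.1).coeff x.2.2

open MvPolynomial in
theorem exists_hpoly (j0 : J) (n i : ℕ) : ∃ h : MvPolynomial (Fin 2 × J × ℕ) ℝ,
    ∀ u v : J → ℝ[X], MvPolynomial.eval (cf u v) h = hval j0 n i u v := by
  induction i with
  | zero => exact ⟨1, fun u v => by simp [hval]⟩
  | succ i ih =>
    obtain ⟨h, hh⟩ := ih
    rcases Nat.mod_two_eq_zero_or_one (n + i + 1) with hT | hT
    · set D := (n + i + 1) / 2 with hD
      let s : Fin 2 × J × ℕ → MvPolynomial (Fin 2 × J × ℕ) ℝ := fun x =>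
        if x.1 = 0 then X (1, j0, D) * X (0, x.2.1, x.2.2) - X (0, j0, D) * X (1, x.2.1, x.2.2)
        else X (1, x.2.1, x.2.2)
      refine ⟨X (1, j0, D) * bind₁ s h, ?_⟩
      intro u v
      have hs : (fun x => MvPolynomial.eval (cf u v) (s x)) = cf (redU j0 D u v) v := by
        funext x
        by_cases hx : x.1 = 0
        · simp [s, cf, hx, redU]
        · simp [s, cf, hx]
      rw [map_mul, MvPolynomial.eval_X]
      have : MvPolynomial.eval (cf u v) (bind₁ s h) = MvPolynomial.eval
          (fun x => MvPolynomial.eval (cf u v) (s x)) h := by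
        simp only [← MvPolynomial.coe_aeval_eq_eval, RingHom.coe_coe]
        exact MvPolynomial.aeval_bind₁ _ _ _
      rw [this, hs, hh, hval, if_pos hT, ← hD]
      simp [cf]
    · set D := (n + i + 1) / 2 with hD
      let s : Fin 2 × J × ℕ → MvPolynomial (Fin 2 × J × ℕ) ℝ := fun x =>
        if x.1 = 0 then X (0, x.2.1, x.2.2)
        else X (0, j0, D) * X (1, x.2.1, x.2.2) -
          X (1, j0, D + 1) * (if x.2.2 = 0 then 0 else X (0, x.2.1, x.2.2 - 1))
      refine ⟨X (0, j0, D) * bind₁ s h, ?_⟩
      intro u v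
      have hs : (fun x => MvPolynomial.eval (cf u v) (s x)) = cf u (redV j0 D u v) := by
        funext x
        by_cases hx : x.1 = 0
        · simp [s, cf, hx]
        · by_cases hx2 : x.2.2 = 0
          · simp [s, cf, hx, redV, hx2]
          · obtain ⟨k, hk⟩ := Nat.exists_eq_succ_of_ne_zero hx2
            simp [s, cf, hx, redV, hk]
      rw [map_mul, MvPolynomial.eval_X]
      have : MvPolynomial.eval (cf u v) (bind₁ s h) = MvPolynomial.eval
          (fun x => MvPolynomial.eval (cf u v) (s x)) h := by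
        simp only [← MvPolynomial.coe_aeval_eq_eval, RingHom.coe_coe]
        exact MvPolynomial.aeval_bind₁ _ _ _
      rw [this, hs, hh, hval, if_neg (by omega), ← hD]
      simp [cf]

end Pool.Agent.H69.PP
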